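import Pool.Agent.Helper42.CP.Lp

/-!
# All `L^p` norms of a family of functions on `[X, 2X]` from one moment and a pointwise bound
-/

set_option autoImplicit false

open MeasureTheory Real Set

namespace Pool.Agent.Helper42.CP

/-- a pointwise bound for all `R ≥ 1` and one moment give all moments -/
theorem all_moments {κ : ℝ} (hκ : 0 ≤ κ) {m : ℕ} (hm : 0 < m) {J ι : Type} {f : J → ι → ℝ → ℝ} (hf0 : ∀ j i R, 0 ≤ f j i R)
    (hsup : ∀ ε : ℝ, 0 < ε → ∃ C : ℝ, ∀ R : ℝ, 1 ≤ R → ∀ j i, f j i R ≤ C * R ^ (κ + ε))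
    (hmom : ∀ ε : ℝ, 0 < ε → ∃ C : ℝ, ∀ X : ℝ, 1 ≤ X → ∀ j,
      ∫⁻ R in Icc X (2 * X), ⨆ i, ENNReal.ofReal (f j i R ^ m) ≤ ENNReal.ofReal (C * X ^ (1 + (m : ℝ) / 2 + ε)))
    {p : ℝ} (hp : 0 < p) {ε : ℝ} (hε : 0 < ε) : ∃ C : ℝ, ∀ X : ℝ, 1 ≤ X → ∀ j,
      ∫⁻ R in Icc X (2 * X), ⨆ i, ENNReal.ofReal (f j i R ^ p) ≤ ENNReal.ofReal (C * X ^ (1 + p * ex κ m (1 / p) + ε)) := by
  have hη : 0 < ε / (1 + p) := by positivity
  obtain ⟨C₁, h1⟩ := hsup _ hη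
  obtain ⟨C₂, h2⟩ := hmom _ hη
  have hm0 : (0 : ℝ) < m := by exact_mod_cast hm
  obtain ⟨C, hC0, hC⟩ := lp_all κ hm0 hp hε (S₀ := |C₁| * 2 ^ (κ + ε / (1 + p))) (B₀ := |C₂|) (by positivity) (abs_nonneg _)
  refine ⟨C, fun X hX j => hC ι (f j) (hf0 j) X hX (fun i R hR => ?_) ?_⟩
  · have hX0 : 0 < X := by linarith
    have hR0 : 0 < R := lt_of_lt_of_le hX0 hR.1
    have h3 := h1 R (hX.trans hR.1) j i
    have h4 : R ^ (κ + ε / (1 + p)) ≤ (2 * X) ^ (κ + ε / (1 + p)) := rpow_le_rpow hR0.le hR.2 (by positivity)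
    rw [mul_rpow (by norm_num) hX0.le] at h4
    calc f j i R ≤ C₁ * R ^ (κ + ε / (1 + p)) := h3
      _ ≤ |C₁| * R ^ (κ + ε / (1 + p)) := mul_le_mul_of_nonneg_right (le_abs_self _) (rpow_nonneg hR0.le _)
      _ ≤ |C₁| * (2 ^ (κ + ε / (1 + p)) * X ^ (κ + ε / (1 + p))) := mul_le_mul_of_nonneg_left h4 (abs_nonneg _)
      _ = |C₁| * 2 ^ (κ + ε / (1 + p)) * X ^ (κ + ε / (1 + p)) := by ring
  · have h5 : ∀ (i : ι) (R : ℝ), f j i R ^ (m : ℝ) = f j i R ^ m := fun i R => rpow_natCast _ _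
    simp only [h5]
    refine (h2 X hX j).trans (ENNReal.ofReal_le_ofReal ?_)
    exact mul_le_mul_of_nonneg_right (le_abs_self _) (by positivity)

end Pool.Agent.Helper42.CP
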