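import Mathlib

/-!
# From one moment and a pointwise bound to all moments
-/

set_option autoImplicit false

open MeasureTheory Real Set

namespace Pool.Agent.Helper42.CP

/-- the exponent: `1/2` for `u ≥ 1/P`, and `κ` at `u = 0` -/
noncomputable def ex (κ P u : ℝ) : ℝ := 1 / 2 + (κ - 1 / 2) * max 0 (1 - P * u)

theorem ex_zero (κ P : ℝ) : ex κ P 0 = κ := by
  unfold ex
  rw [mul_zero, sub_zero, max_eq_right zero_le_one]
  ring

/-- large `p` -/
theorem lp_large {ι : Type} {f : ι → ℝ → ℝ} (hf0 : ∀ i R, 0 ≤ f i R) {X S P p B : ℝ} (hP : 0 < P) (hp : P ≤ p) (hS0 : 0 ≤ S)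
    (hS : ∀ i, ∀ R ∈ Icc X (2 * X), f i R ≤ S)
    (hB : ∫⁻ R in Icc X (2 * X), ⨆ i, ENNReal.ofReal (f i R ^ P) ≤ ENNReal.ofReal B) :
    ∫⁻ R in Icc X (2 * X), ⨆ i, ENNReal.ofReal (f i R ^ p) ≤ ENNReal.ofReal (S ^ (p - P) * B) := by
  have hS1 : 0 ≤ S ^ (p - P) := rpow_nonneg hS0 _
  calc ∫⁻ R in Icc X (2 * X), ⨆ i, ENNReal.ofReal (f i R ^ p)
      ≤ ∫⁻ R in Icc X (2 * X), ENNReal.ofReal (S ^ (p - P)) * ⨆ i, ENNReal.ofReal (f i R ^ P) := by
        refine setLIntegral_mono' measurableSet_Icc fun R hR => iSup_le fun i => ?_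
        refine le_trans ?_ (mul_le_mul_right (le_iSup (fun i => ENNReal.ofReal (f i R ^ P)) i) _)
        rw [← ENNReal.ofReal_mul hS1]
        refine ENNReal.ofReal_le_ofReal ?_
        rcases eq_or_lt_of_le (hf0 i R) with h | h
        · rw [← h, zero_rpow (hP.trans_le hp).ne', zero_rpow hP.ne', mul_zero]
        · have h1 : f i R ^ p = f i R ^ (p - P) * f i R ^ P := by
            rw [← rpow_add h]
            congr 1
            ring
          rw [h1]
          exact mul_le_mul_of_nonneg_right (rpow_le_rpow h.le (hS i R hR) (by linarith)) (rpow_nonneg h.le _)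
    _ = ENNReal.ofReal (S ^ (p - P)) * ∫⁻ R in Icc X (2 * X), ⨆ i, ENNReal.ofReal (f i R ^ P) :=
        lintegral_const_mul' _ _ ENNReal.ofReal_ne_top
    _ ≤ ENNReal.ofReal (S ^ (p - P)) * ENNReal.ofReal B := mul_le_mul_right hB _
    _ = ENNReal.ofReal (S ^ (p - P) * B) := (ENNReal.ofReal_mul hS1).symm

/-- small `p` -/
theorem lp_small {ι : Type} {f : ι → ℝ → ℝ} (hf0 : ∀ i R, 0 ≤ f i R) {X P p T B : ℝ} (hX : 0 ≤ X) (hT : 0 < T) (hp : 0 < p)
    (hpP : p ≤ P) (hB0 : 0 ≤ B)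
    (hB : ∫⁻ R in Icc X (2 * X), ⨆ i, ENNReal.ofReal (f i R ^ P) ≤ ENNReal.ofReal B) :
    ∫⁻ R in Icc X (2 * X), ⨆ i, ENNReal.ofReal (f i R ^ p) ≤ ENNReal.ofReal (X * T ^ p + T ^ (p - P) * B) := by
  have hT1 : 0 ≤ T ^ (p - P) := rpow_nonneg hT.le _
  have hT2 : 0 ≤ T ^ p := rpow_nonneg hT.le _
  calc ∫⁻ R in Icc X (2 * X), ⨆ i, ENNReal.ofReal (f i R ^ p)
      ≤ ∫⁻ R in Icc X (2 * X), (ENNReal.ofReal (T ^ p) + ENNReal.ofReal (T ^ (p - P)) * ⨆ i, ENNReal.ofReal (f i R ^ P)) := by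
        refine setLIntegral_mono' measurableSet_Icc fun R hR => iSup_le fun i => ?_
        refine le_trans ?_ (add_le_add le_rfl (mul_le_mul_right (le_iSup (fun i => ENNReal.ofReal (f i R ^ P)) i) _))
        rw [← ENNReal.ofReal_mul hT1, ← ENNReal.ofReal_add hT2 (mul_nonneg hT1 (rpow_nonneg (hf0 i R) _))]
        refine ENNReal.ofReal_le_ofReal ?_
        have h3 : 0 ≤ T ^ (p - P) * f i R ^ P := mul_nonneg hT1 (rpow_nonneg (hf0 i R) _)
        rcases le_or_gt (f i R) T with h | h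
        · have := rpow_le_rpow (hf0 i R) h hp.le
          linarith
        · have h4 : 0 < f i R := hT.trans h
          have h5 : f i R ^ p ≤ T ^ (p - P) * f i R ^ P := by
            have h6 : f i R ^ p = f i R ^ (p - P) * f i R ^ P := by
              rw [← rpow_add h4]
              congr 1
              ring
            rw [h6]
            refine mul_le_mul_of_nonneg_right ?_ (rpow_nonneg h4.le _)
            exact rpow_le_rpow_of_nonpos hT h.le (by linarith)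
          linarith
    _ = ENNReal.ofReal (T ^ p) * ENNReal.ofReal X +
          ENNReal.ofReal (T ^ (p - P)) * ∫⁻ R in Icc X (2 * X), ⨆ i, ENNReal.ofReal (f i R ^ P) := by
        rw [lintegral_add_left measurable_const, lintegral_const_mul' _ _ ENNReal.ofReal_ne_top, setLIntegral_const, Real.volume_Icc]
        congr 3
        ring
    _ ≤ ENNReal.ofReal (T ^ p) * ENNReal.ofReal X + ENNReal.ofReal (T ^ (p - P)) * ENNReal.ofReal B :=
        add_le_add le_rfl (mul_le_mul_right hB _)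
    _ = ENNReal.ofReal (X * T ^ p + T ^ (p - P) * B) := by
        rw [← ENNReal.ofReal_mul hT2, ← ENNReal.ofReal_mul hT1, ← ENNReal.ofReal_add (mul_nonneg hT2 hX) (mul_nonneg hT1 hB0)]
        congr 1
        ring

/-- all moments from one of them and a pointwise bound -/
theorem lp_all (κ : ℝ) {P p ε : ℝ} (hP : 0 < P) (hp : 0 < p) (hε : 0 < ε) {S₀ B₀ : ℝ} (hS₀ : 0 ≤ S₀) (hB₀ : 0 ≤ B₀) :
    ∃ C : ℝ, 0 ≤ C ∧ ∀ (ι : Type) (f : ι → ℝ → ℝ), (∀ i R, 0 ≤ f i R) → ∀ X : ℝ, 1 ≤ X →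
      (∀ i, ∀ R ∈ Icc X (2 * X), f i R ≤ S₀ * X ^ (κ + ε / (1 + p))) →
      ∫⁻ R in Icc X (2 * X), ⨆ i, ENNReal.ofReal (f i R ^ P) ≤ ENNReal.ofReal (B₀ * X ^ (1 + P / 2 + ε / (1 + p))) →
      ∫⁻ R in Icc X (2 * X), ⨆ i, ENNReal.ofReal (f i R ^ p) ≤ ENNReal.ofReal (C * X ^ (1 + p * ex κ P (1 / p) + ε)) := by
  have hp1 : 0 < 1 + p := by linarith
  obtain ⟨η, hη⟩ : ∃ η : ℝ, η = ε / (1 + p) := ⟨_, rfl⟩
  have hη0 : 0 < η := by rw [hη]; positivity
  have hηε : η * (1 + p) = ε := by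
    rw [hη]
    field_simp
  rcases le_total P p with h | h
  · refine ⟨S₀ ^ (p - P) * B₀, by positivity, fun ι f hf0 X hX hS hB => ?_⟩
    rw [← hη] at hS hB
    have hX0 : 0 < X := by linarith
    have h1 := lp_large hf0 hP h (by positivity) hS hB
    refine h1.trans (ENNReal.ofReal_le_ofReal ?_)
    have h2 : (S₀ * X ^ (κ + η)) ^ (p - P) = S₀ ^ (p - P) * X ^ ((κ + η) * (p - P)) := by
      rw [mul_rpow hS₀ (rpow_nonneg hX0.le _), ← rpow_mul hX0.le]
    rw [h2]
    have h4 : S₀ ^ (p - P) * X ^ ((κ + η) * (p - P)) * (B₀ * X ^ (1 + P / 2 + η)) =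
        S₀ ^ (p - P) * B₀ * X ^ ((κ + η) * (p - P) + (1 + P / 2 + η)) := by
      have e := rpow_add hX0 ((κ + η) * (p - P)) (1 + P / 2 + η)
      rw [e]
      ring
    rw [h4]
    refine mul_le_mul_of_nonneg_left (rpow_le_rpow_of_exponent_le hX ?_) (by positivity)
    have h5 : ex κ P (1 / p) = 1 / 2 + (κ - 1 / 2) * (1 - P / p) := by
      unfold ex
      rw [mul_one_div, max_eq_right]
      have : P / p ≤ 1 := (div_le_one hp).2 h
      linarith
    have h6 : p * ex κ P (1 / p) = p / 2 + (κ - 1 / 2) * (p - P) := by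
      rw [h5]
      field_simp
    rw [h6]
    nlinarith
  · refine ⟨1 + B₀, by positivity, fun ι f hf0 X hX hS hB => ?_⟩
    rw [← hη] at hS hB
    have hX0 : 0 < X := by linarith
    have hT : 0 < √X := Real.sqrt_pos.2 hX0
    have h1 := lp_small hf0 hX0.le hT hp h (by positivity) hB
    have h2 : √X ^ p = X ^ (p / 2) := by
      rw [Real.sqrt_eq_rpow, ← rpow_mul hX0.le]
      congr 1
      ring
    have h2' : √X ^ (p - P) = X ^ ((p - P) / 2) := by
      rw [Real.sqrt_eq_rpow, ← rpow_mul hX0.le]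
      congr 1
      ring
    rw [h2, h2'] at h1
    refine h1.trans (ENNReal.ofReal_le_ofReal ?_)
    have h5 : ex κ P (1 / p) = 1 / 2 := by
      unfold ex
      rw [mul_one_div, max_eq_left, mul_zero, add_zero]
      have : 1 ≤ P / p := (one_le_div hp).2 h
      linarith
    rw [h5]
    have h6 : X * X ^ (p / 2) ≤ X ^ (1 + p * (1 / 2) + ε) := by
      have : X * X ^ (p / 2) = X ^ (1 + p / 2) := by
        rw [rpow_add hX0, rpow_one]
      rw [this]
      exact rpow_le_rpow_of_exponent_le hX (by linarith)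
    have h7 : X ^ ((p - P) / 2) * (B₀ * X ^ (1 + P / 2 + η)) ≤ B₀ * X ^ (1 + p * (1 / 2) + ε) := by
      have : X ^ ((p - P) / 2) * (B₀ * X ^ (1 + P / 2 + η)) = B₀ * X ^ ((p - P) / 2 + (1 + P / 2 + η)) := by
        have e := rpow_add hX0 ((p - P) / 2) (1 + P / 2 + η)
        rw [e]
        ring
      rw [this]
      refine mul_le_mul_of_nonneg_left (rpow_le_rpow_of_exponent_le hX ?_) hB₀
      nlinarith [mul_pos hη0 hp]
    linarith

end Pool.Agent.Helper42.CP
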