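import Pool.Agent.Helper42.CP.Gen
import Pool.Agent.Helper53.TM.T8

/-!
# The moments for the unit disc at every fixed centre
-/

set_option autoImplicit false

open MeasureTheory Real Set

namespace Pool.Agent.Helper42.CP

open Pool.Agent.Helper22.AC (cntc)
open Pool.Agent.Helper22.AE (area)
open Pool.Agent.Helper92.GC (dcnt)

/-- the tenth moment of the unit disc, every centre -/
theorem ten {κ : ℝ} (hκ0 : 1 / 2 ≤ κ) (hκ : κ < 5 / 8)
    (hsup : ∀ ε : ℝ, 0 < ε → ∃ C : ℝ, ∀ R : ℝ, 1 ≤ R → ∀ c : ℝ × ℝ,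
      |cntc (fun _ => 1) c R - area (fun _ => 1) * R ^ 2| ≤ C * R ^ (κ + ε))
    {ε : ℝ} (hε : 0 < ε) : ∃ B : ℝ, ∀ X : ℝ, 1 ≤ X → ∀ c : ℝ × ℝ,
      ∫⁻ R in Icc X (2 * X), ENNReal.ofReal (|cntc (fun _ => 1) c R - area (fun _ => 1) * R ^ 2| ^ 10) ≤
        ENNReal.ofReal (B * X ^ (6 + ε)) := by
  have heq : ∀ (c : ℝ × ℝ) (R : ℝ), 0 ≤ R → |cntc (fun _ => 1) c R - area (fun _ => 1) * R ^ 2| = |dcnt c R - π * R ^ 2| := by
    intro c R hR
    rw [Pool.Agent.Helper92.GC.dcnt_eq hR, Pool.Agent.Helper92.GC.area_one]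
  obtain ⟨η, hη⟩ : ∃ η : ℝ, η = (5 / 8 - κ) / 2 := ⟨_, rfl⟩
  have hη0 : 0 < η := by linarith
  have hsup' : ∃ C : ℝ, ∀ R : ℝ, 1 ≤ R → ∀ c : ℝ × ℝ, |dcnt c R - π * R ^ 2| ≤ C * R ^ (κ + η) := by
    obtain ⟨C, hC⟩ := hsup η hη0
    refine ⟨C, fun R hR c => ?_⟩
    rw [← heq c R (by linarith)]
    exact hC R hR c
  obtain ⟨C, hC⟩ := Pool.Agent.Helper53.TM.tenth_moment (by linarith) (by linarith) hsup' hε
  refine ⟨|C| * 2 ^ (6 + ε), fun X hX c => ?_⟩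
  have hX0 : 0 < X := by linarith
  have h1 : ∫⁻ R in Icc X (2 * X), ENNReal.ofReal (|cntc (fun _ => 1) c R - area (fun _ => 1) * R ^ 2| ^ 10) =
      ∫⁻ R in Icc X (2 * X), ENNReal.ofReal (Pool.Agent.Helper53.TM.er c R ^ 10) := by
    refine setLIntegral_congr_fun measurableSet_Icc fun R hR => ?_
    simp only [Pool.Agent.Helper53.TM.er]
    rw [heq c R (by linarith [hR.1])]
  rw [h1]
  refine (lintegral_mono_set (Icc_subset_Icc_left hX)).trans ((hC c (2 * X) (by linarith)).trans (ENNReal.ofReal_le_ofReal ?_))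
  have h2 : (2 * X) ^ (6 + ε) = 2 ^ (6 + ε) * X ^ (6 + ε) := mul_rpow (by norm_num) hX0.le
  rw [h2, mul_assoc]
  exact mul_le_mul_of_nonneg_right (le_abs_self C) (by positivity)

/-- all moments of the unit disc, every centre -/
theorem disc_all {κ : ℝ} (hκ0 : 1 / 2 ≤ κ) (hκ : κ < 5 / 8)
    (hsup : ∀ ε : ℝ, 0 < ε → ∃ C : ℝ, ∀ R : ℝ, 1 ≤ R → ∀ c : ℝ × ℝ,
      |cntc (fun _ => 1) c R - area (fun _ => 1) * R ^ 2| ≤ C * R ^ (κ + ε))
    {p : ℝ} (hp : 0 < p) {ε : ℝ} (hε : 0 < ε) : ∃ C : ℝ, ∀ X : ℝ, 1 ≤ X → ∀ c : ℝ × ℝ,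
      ∫⁻ R in Icc X (2 * X), ENNReal.ofReal (|cntc (fun _ => 1) c R - area (fun _ => 1) * R ^ 2| ^ p) ≤
        ENNReal.ofReal (C * X ^ (1 + p * ex κ 10 (1 / p) + ε)) := by
  obtain ⟨C, hC⟩ := all_moments (J := ℝ × ℝ) (ι := Unit) (m := 10)
    (f := fun c _ R => |cntc (fun _ => 1) c R - area (fun _ => 1) * R ^ 2|) (κ := κ) (by linarith) (by norm_num)
    (fun _ _ _ => abs_nonneg _) (fun δ hδ => by
      obtain ⟨C, hC⟩ := hsup δ hδ
      exact ⟨C, fun R hR c _ => hC R hR c⟩)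
    (fun δ hδ => by
      obtain ⟨B, hB⟩ := ten hκ0 hκ hsup hδ
      refine ⟨B, fun X hX c => ?_⟩
      have h := hB X hX c
      simp only [iSup_const]
      refine h.trans (le_of_eq ?_)
      congr 3
      norm_num) hp hε
  refine ⟨C, fun X hX c => ?_⟩
  have h := hC X hX c
  simp only [iSup_const] at h
  push_cast at h
  exact h

end Pool.Agent.Helper42.CP
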