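import Pool.Agent.Helper42.CP.Gen
import Pool.Agent.Helper92.CP.Wc3
import Pool.Agent.Helper22.OV.Shift

/-!
# All moments at the worst centre, every `C³` oval
-/

set_option autoImplicit false

open MeasureTheory Real Set

namespace Pool.Agent.Helper42.CP

open Pool.Agent.Helper22.AC (cntc)
open Pool.Agent.Helper22.AE (area)
open Pool.Agent.Helper22.OV (shf exists_shift shf_smooth cntc_shf area_shf)

/-- the eighth moment at the worst centre, every origin -/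
theorem mom8 {H : ℝ → ℝ} (h3 : ContDiff ℝ 3 H) (hper : Function.Periodic H (2 * π)) (hr : ∀ t, 0 < H t + deriv (deriv H) t)
    {ε : ℝ} (hε : 0 < ε) : ∃ C : ℝ, ∀ X : ℝ, 1 ≤ X →
      ∫⁻ R in Icc X (2 * X), ⨆ c : ℝ × ℝ, ENNReal.ofReal (|cntc H c R - area H * R ^ 2| ^ 8) ≤ ENNReal.ofReal (C * X ^ (5 + ε)) := by
  obtain ⟨v, hv⟩ := exists_shift (h3.of_le (by norm_num)) hper hr
  obtain ⟨C, -, hC⟩ := Pool.Agent.Helper92.CP.wc8 hv (shf_smooth v h3) hε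
  refine ⟨C, fun X hX => ?_⟩
  obtain ⟨W, hW, hW0, hb, hi⟩ := hC X hX
  have h1 : ∀ R ∈ Icc X (2 * X), (⨆ c : ℝ × ℝ, ENNReal.ofReal (|cntc H c R - area H * R ^ 2| ^ 8)) ≤ ENNReal.ofReal (W R) := by
    intro R hR
    refine iSup_le fun c => ENNReal.ofReal_le_ofReal ?_
    have h := hb R hR (c.1 - R * v.1, c.2 - R * v.2)
    rw [cntc_shf, area_shf] at h
    exact h
  calc ∫⁻ R in Icc X (2 * X), ⨆ c : ℝ × ℝ, ENNReal.ofReal (|cntc H c R - area H * R ^ 2| ^ 8)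
      ≤ ∫⁻ R in Icc X (2 * X), ENNReal.ofReal (W R) := setLIntegral_mono' measurableSet_Icc h1
    _ = ENNReal.ofReal (∫ R in Icc X (2 * X), W R) := by
        refine (ofReal_integral_eq_lintegral_ofReal ?_ (Filter.Eventually.of_forall hW0)).symm
        exact hW.continuousOn.integrableOn_compact isCompact_Icc
    _ ≤ ENNReal.ofReal (C * X ^ (5 + ε)) := ENNReal.ofReal_le_ofReal hi

/-- all moments at the worst centre -/
theorem worst_all {H : ℝ → ℝ} (h3 : ContDiff ℝ 3 H) (hper : Function.Periodic H (2 * π)) (hr : ∀ t, 0 < H t + deriv (deriv H) t)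
    {κ : ℝ} (hκ : 0 ≤ κ)
    (hsup : ∀ ε : ℝ, 0 < ε → ∃ C : ℝ, ∀ R : ℝ, 1 ≤ R → ∀ c : ℝ × ℝ, |cntc H c R - area H * R ^ 2| ≤ C * R ^ (κ + ε))
    {p : ℝ} (hp : 0 < p) {ε : ℝ} (hε : 0 < ε) : ∃ C : ℝ, ∀ X : ℝ, 1 ≤ X →
      ∫⁻ R in Icc X (2 * X), ⨆ c : ℝ × ℝ, ENNReal.ofReal (|cntc H c R - area H * R ^ 2| ^ p) ≤
        ENNReal.ofReal (C * X ^ (1 + p * ex κ 8 (1 / p) + ε)) := by
  obtain ⟨C, hC⟩ := all_moments (J := Unit) (ι := ℝ × ℝ) (m := 8)
    (f := fun _ c R => |cntc H c R - area H * R ^ 2|) hκ (by norm_num)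
    (fun _ _ _ => abs_nonneg _) (fun δ hδ => by
      obtain ⟨C, hC⟩ := hsup δ hδ
      exact ⟨C, fun R hR _ c => hC R hR c⟩)
    (fun δ hδ => by
      obtain ⟨B, hB⟩ := mom8 h3 hper hr hδ
      refine ⟨B, fun X hX _ => (hB X hX).trans (le_of_eq ?_)⟩
      congr 3
      norm_num) hp hε
  refine ⟨C, fun X hX => ?_⟩
  have h := hC X hX ()
  push_cast at h
  exact h

end Pool.Agent.Helper42.CP
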